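import Pool.Agent.Helper81.AD2.Final
import Pool.Agent.Helper88.AD.Upper
import Pool.Agent.Helper18.AD.R1
import Pool.Agent.Helper65.AD.R2
import Pool.Agent.Helper98.AD.Eval
import Pool.Agent.Helper49.AD.WS

/-!
The dimension of the space of arrow diagrams of degree `d` modulo 6T on the interval lies between
`d!` and `∑ C(d,k)^2 k! ≤ d! exp (2 sqrt d)`.
-/

namespace Pool.Agent.Results.MP_ccb3f4_gt.SharpGrowth

open Pool.Agent.Helper88.AD

theorem result :
    (∀ d : ℕ, d.factorial ≤ Module.finrank ℚ (AI d) ∧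
      Module.finrank ℚ (AI d) ≤ ∑ k ∈ Finset.range (d + 1), d.choose k ^ 2 * k.factorial ∧
      ((∑ k ∈ Finset.range (d + 1), d.choose k ^ 2 * k.factorial : ℕ) : ℝ) ≤
        d.factorial * Real.exp (2 * Real.sqrt d)) ∧
    (∀ d : ℕ, |Real.log (Module.finrank ℚ (AI d)) - Real.log d.factorial| ≤ 2 * Real.sqrt d) ∧
    Filter.Tendsto
      (fun d : ℕ => ((Module.finrank ℚ (AI d) : ℝ) / d.factorial) ^ ((1 : ℝ) / d))
      Filter.atTop (nhds 1) := by
  have hlow : StmtLow := low_of Pool.Agent.Helper49.AD.stmtWS Pool.Agent.Helper18.AD.stmtR1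
    Pool.Agent.Helper65.AD.stmtR2 Pool.Agent.Helper98.AD.stmtEval
  have hlow' : ∀ d : ℕ, d.factorial ≤ Module.finrank ℚ (AI d) := fun d =>
    (le_finrank_AT hlow d).trans (finrank_AT_le_AI d)
  obtain ⟨h1, h2⟩ := Pool.Agent.Helper81.AD2.s_LIM (fun d => Module.finrank ℚ (AI d)) hlow'
    Pool.Agent.Helper81.AD2.s_MAIN
  exact ⟨fun d => ⟨hlow' d, Pool.Agent.Helper81.AD2.s_MAIN d,
    Pool.Agent.Helper81.AD2.s_NUM d⟩, h2, h1⟩

end Pool.Agent.Results.MP_ccb3f4_gt.SharpGrowth
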