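import Pool.Agent.Helper88.AD.Upper
import Pool.Agent.Helper18.AD.R1
import Pool.Agent.Helper65.AD.R2
import Pool.Agent.Helper98.AD.Eval
import Pool.Agent.Helper49.AD.WS

/-!
The quotient of the space of arrow diagrams modulo 6T on the interval by the relation that
reversing one arrow changes the sign has dimension exactly `d!` in degree `d`.
-/

namespace Pool.Agent.Results.MP_ccb3f4_gt.TriangularQuotient

open Pool.Agent.Helper88.AD

theorem result (d : ℕ) : Module.finrank ℚ (AT d) = d.factorial ∧
    d.factorial ≤ Module.finrank ℚ (AI d) := by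
  have hL : StmtLow := low_of Pool.Agent.Helper49.AD.stmtWS Pool.Agent.Helper18.AD.stmtR1
    Pool.Agent.Helper65.AD.stmtR2 Pool.Agent.Helper98.AD.stmtEval
  exact ⟨le_antisymm (finrank_AT_le d) (le_finrank_AT hL d),
    (le_finrank_AT hL d).trans (finrank_AT_le_AI d)⟩

end Pool.Agent.Results.MP_ccb3f4_gt.TriangularQuotient
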